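import Mathlib

/-!
# The affine polar graphs `VO⁺(2n, 2)` have a matrix with two distinct eigenvalues

`polar n`: the vertices are the pairs `(a, b)` of vectors of `F₂ⁿ`; two different vertices are
adjacent if the hyperbolic quadratic form `Q(s, t) = s · t` vanishes on their difference. These are
the affine polar graphs `VO⁺(2n, 2)`, a classical family of strongly regular graphs, with
`4 ^ n` vertices and valency `(2 ^ n - 1) (2 ^ (n - 1) + 1)`.

Theorem: `S(polar n)` contains a positive semidefinite matrix with the two eigenvalues `0` and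
`2 ^ n (2 ^ n + 3)`, of rank `2 ^ n`. So `q = 2` and `MB ≤ 2 ^ n`. The matrix is the Gram matrix of
the vectors `φ_{a,b}(x) = (-1) ^ (b · x) (1 + [x = a])` of `ℝ ^ (F₂ⁿ)` (the orbit of one vector under
the real Heisenberg group), which form a tight frame.
-/

set_option autoImplicit false

namespace Pool.Agent.Results.MP_6f6da3_co.AffinePolarTwo

open Matrix Finset

/-- `A` belongs to `S(G)`. -/
def InS {V : Type} (G : SimpleGraph V) (A : Matrix V V ℝ) : Prop :=
  A.IsSymm ∧ ∀ x y, x ≠ y → (A x y ≠ 0 ↔ G.Adj x y)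

/-- The vectors of `F₂ⁿ`. -/
abbrev Vec (n : ℕ) : Type := Fin n → ZMod 2

/-- The affine polar graph `VO⁺(2n, 2)`. -/
def polar (n : ℕ) : SimpleGraph (Vec n × Vec n) where
  Adj w z := w ≠ z ∧ (w.1 + z.1) ⬝ᵥ (w.2 + z.2) = 0
  symm := ⟨fun w z h => ⟨h.1.symm, by rw [add_comm z.1, add_comm z.2]; exact h.2⟩⟩
  loopless := ⟨fun _ h => h.1 rfl⟩

/-- the character of `F₂` -/
def sg (a : ZMod 2) : ℝ := if a = 0 then 1 else -1

theorem two (a : ZMod 2) : a = 0 ∨ a = 1 := by
  fin_cases a
  · left; rfl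
  · right; rfl

theorem sg_add (a b : ZMod 2) : sg (a + b) = sg a * sg b := by
  have h : (1 : ZMod 2) + 1 = 0 := by decide
  rcases two a with rfl | rfl <;> rcases two b with rfl | rfl <;> simp [sg, h]

theorem sg_sq (a : ZMod 2) : sg a * sg a = 1 := by
  unfold sg; split <;> norm_num

theorem sg_ne (a : ZMod 2) : sg a ≠ 0 := by
  unfold sg; split <;> norm_num

variable {n : ℕ}

theorem add_self (x : Vec n) : x + x = 0 := by
  funext i
  exact CharTwo.add_self_eq_zero (x i)

/-- the sum of a nontrivial character -/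
theorem char_sum (t : Vec n) :
    ∑ x : Vec n, sg (t ⬝ᵥ x) = if t = 0 then (2 : ℝ) ^ n else 0 := by
  split
  · rename_i h
    subst h
    simp [sg]
  · rename_i h
    obtain ⟨i, hi⟩ : ∃ i, t i ≠ 0 := by
      by_contra hc
      push Not at hc
      exact h (funext hc)
    have hi1 : t i = 1 := (two (t i)).resolve_left hi
    obtain ⟨e, he⟩ : ∃ e : Vec n, t ⬝ᵥ e = 1 := ⟨Pi.single i 1, by
      rw [dotProduct_single, hi1, mul_one]⟩
    have h1 : ∑ x : Vec n, sg (t ⬝ᵥ x) = ∑ x : Vec n, sg (t ⬝ᵥ (x + e)) :=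
      (Equiv.sum_comp (Equiv.addRight e) fun x : Vec n => sg (t ⬝ᵥ x)).symm
    have h2 : ∀ x : Vec n, sg (t ⬝ᵥ (x + e)) = -sg (t ⬝ᵥ x) := by
      intro x
      rw [dotProduct_add, sg_add, he]
      simp [sg]
    rw [Finset.sum_congr rfl fun x _ => h2 x, Finset.sum_neg_distrib] at h1
    linarith

/-- the vectors of the frame -/
def fr (w : Vec n × Vec n) (x : Vec n) : ℝ := sg (w.2 ⬝ᵥ x) * (1 + if x = w.1 then 1 else 0)

/-- the frame as a matrix -/
def Φ (n : ℕ) : Matrix (Vec n) (Vec n × Vec n) ℝ := Matrix.of fun x w => fr w x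

/-- the Gram matrix -/
noncomputable def A (n : ℕ) : Matrix (Vec n × Vec n) (Vec n × Vec n) ℝ := (Φ n)ᵀ * Φ n

theorem A_apply (w z : Vec n × Vec n) : A n w z =
    (if w.2 + z.2 = 0 then (2 : ℝ) ^ n else 0) + sg ((w.2 + z.2) ⬝ᵥ w.1) +
      sg ((w.2 + z.2) ⬝ᵥ z.1) + if w.1 = z.1 then sg ((w.2 + z.2) ⬝ᵥ w.1) else 0 := by
  have h : ∀ x : Vec n, fr w x * fr z x = sg ((w.2 + z.2) ⬝ᵥ x) +
      (if x = w.1 then sg ((w.2 + z.2) ⬝ᵥ x) else 0) +
      (if x = z.1 then sg ((w.2 + z.2) ⬝ᵥ x) else 0) +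
      (if x = w.1 then (if w.1 = z.1 then sg ((w.2 + z.2) ⬝ᵥ x) else 0) else 0) := by
    intro x
    unfold fr
    rw [add_dotProduct, sg_add]
    by_cases h1 : x = w.1
    · subst h1
      by_cases h2 : w.1 = z.1
      · simp [h2]; ring
      · simp [h2]; ring
    · by_cases h2 : x = z.1
      · subst h2
        simp [h1]; ring
      · simp [h1, h2]
  unfold A
  rw [Matrix.mul_apply]
  simp only [Matrix.transpose_apply, Φ, Matrix.of_apply]
  rw [Finset.sum_congr rfl fun x _ => h x, Finset.sum_add_distrib, Finset.sum_add_distrib,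
    Finset.sum_add_distrib, char_sum, Finset.sum_ite_eq', Finset.sum_ite_eq', Finset.sum_ite_eq']
  simp

theorem A_inS : InS (polar n) (A n) := by
  refine ⟨?_, ?_⟩
  · show ((Φ n)ᵀ * Φ n)ᵀ = (Φ n)ᵀ * Φ n
    rw [Matrix.transpose_mul, Matrix.transpose_transpose]
  · intro w z hwz
    rw [A_apply]
    show _ ↔ w ≠ z ∧ (w.1 + z.1) ⬝ᵥ (w.2 + z.2) = 0
    have e : sg ((w.2 + z.2) ⬝ᵥ z.1) =
        sg ((w.2 + z.2) ⬝ᵥ w.1) * sg ((w.1 + z.1) ⬝ᵥ (w.2 + z.2)) := by
      rw [← sg_add, dotProduct_comm (w.1 + z.1), ← dotProduct_add, ← add_assoc, add_self, zero_add]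
    rw [e]
    rcases two ((w.1 + z.1) ⬝ᵥ (w.2 + z.2)) with h | h
    · rw [h]
      refine iff_of_true ?_ ⟨hwz, rfl⟩
      have e0 : sg (0 : ZMod 2) = 1 := by simp [sg]
      rw [e0, mul_one]
      by_cases ht : w.2 + z.2 = 0
      · rw [ht, zero_dotProduct, e0]
        have : (0 : ℝ) < 2 ^ n := by positivity
        by_cases hs : w.1 = z.1 <;> simp [hs] <;> linarith
      · rw [if_neg ht, zero_add]
        have := sg_ne ((w.2 + z.2) ⬝ᵥ w.1)
        by_cases hs : w.1 = z.1
        · rw [if_pos hs]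
          intro hc
          apply this
          linarith
        · rw [if_neg hs]
          intro hc
          apply this
          linarith
    · rw [h]
      refine iff_of_false ?_ (fun hc => one_ne_zero hc.2)
      have e1 : sg (1 : ZMod 2) = -1 := by simp [sg]
      rw [e1, not_not]
      have ht : w.2 + z.2 ≠ 0 := by
        intro ht
        rw [ht, dotProduct_zero] at h
        exact one_ne_zero h.symm
      have hs : w.1 ≠ z.1 := by
        intro hs
        rw [hs, add_self, zero_dotProduct] at h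
        exact one_ne_zero h.symm
      rw [if_neg ht, if_neg hs]
      ring

/-- the frame is tight -/
theorem frame : Φ n * (Φ n)ᵀ = ((2 : ℝ) ^ n * (2 ^ n + 3)) • (1 : Matrix (Vec n) (Vec n) ℝ) := by
  ext x y
  rw [Matrix.mul_apply, Fintype.sum_prod_type]
  simp only [Matrix.transpose_apply, Φ, Matrix.of_apply, fr]
  have h : ∀ a b : Vec n, sg (b ⬝ᵥ x) * (1 + if x = a then 1 else 0) *
      (sg (b ⬝ᵥ y) * (1 + if y = a then 1 else 0)) =
      sg ((x + y) ⬝ᵥ b) * ((1 + if x = a then 1 else 0) * (1 + if y = a then (1 : ℝ) else 0)) := by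
    intro a b
    rw [dotProduct_comm (x + y), dotProduct_add, sg_add]
    ring
  simp only [h]
  simp only [← Finset.sum_mul]
  rw [char_sum, ← Finset.mul_sum, Matrix.smul_apply, Matrix.one_apply]
  by_cases hxy : x = y
  · subst hxy
    rw [if_pos (add_self x), if_pos rfl]
    have h2 : ∀ a : Vec n, (1 + if x = a then 1 else 0) * (1 + if x = a then (1 : ℝ) else 0) =
        1 + if x = a then 3 else 0 := by
      intro a; split <;> norm_num
    rw [Finset.sum_congr rfl fun a _ => h2 a, Finset.sum_add_distrib, Finset.sum_ite_eq]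
    simp
  · have : x + y ≠ 0 := by
      intro hc
      apply hxy
      have : x + y + y = y := by rw [hc, zero_add]
      rwa [add_assoc, add_self, add_zero] at this
    rw [if_neg this, if_neg hxy]
    simp

theorem A_sq : A n * A n = ((2 : ℝ) ^ n * (2 ^ n + 3)) • A n := by
  unfold A
  rw [Matrix.mul_assoc, ← Matrix.mul_assoc (Φ n), frame, Matrix.smul_mul, Matrix.one_mul,
    Matrix.mul_smul]

theorem A_rank : (A n).rank = 2 ^ n := by
  unfold A
  rw [Matrix.rank_transpose_mul_self]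
  apply le_antisymm
  · refine (Matrix.rank_le_card_height _).trans ?_
    simp
  · have h1 : (Φ n * (Φ n)ᵀ).rank = 2 ^ n := by
      rw [frame]
      have hc : ((2 : ℝ) ^ n * (2 ^ n + 3)) ≠ 0 := by positivity
      have hu : IsUnit (((2 : ℝ) ^ n * (2 ^ n + 3)) • (1 : Matrix (Vec n) (Vec n) ℝ)) := by
        have := (IsUnit.mk0 _ hc).map (algebraMap ℝ (Matrix (Vec n) (Vec n) ℝ))
        rwa [Algebra.algebraMap_eq_smul_one] at this
      rw [Matrix.rank_of_isUnit _ hu]
      simp
    rw [← h1]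
    exact Matrix.rank_mul_le_left _ _

theorem spec {V : Type} [Fintype V] [DecidableEq V] (M : Matrix V V ℝ) (c : ℝ)
    (h : M * M = c • M) (h0 : M ≠ 0) (h1 : M ≠ c • 1) : spectrum ℝ M = {0, c} := by
  have key : ∀ r : ℝ, (algebraMap ℝ (Matrix V V ℝ) r - M) *
      (M + algebraMap ℝ (Matrix V V ℝ) (r - c)) = (r * (r - c)) • 1 := by
    intro r
    rw [Algebra.algebraMap_eq_smul_one, Algebra.algebraMap_eq_smul_one, sub_mul, mul_add, mul_add, h]
    simp only [smul_mul_assoc, one_mul, mul_smul_comm, mul_one, smul_smul, sub_smul, mul_sub,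
      mul_comm c r]
    abel
  apply Set.Subset.antisymm
  · intro r hr
    rw [spectrum.mem_iff] at hr
    by_contra hne
    have hr0 : r ≠ 0 := fun e => hne (Or.inl e)
    have hrc : r - c ≠ 0 := fun e => hne (Or.inr (by rw [Set.mem_singleton_iff]; linarith))
    have hz : r * (r - c) ≠ 0 := mul_ne_zero hr0 hrc
    apply hr
    refine IsUnit.of_mul_eq_one ((r * (r - c))⁻¹ • (M + algebraMap ℝ (Matrix V V ℝ) (r - c))) ?_
    rw [mul_smul_comm, key, smul_smul, inv_mul_cancel₀ hz, one_smul]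
  · rintro r hr
    rw [spectrum.mem_iff]
    intro hu
    have hz : r * (r - c) = 0 := by
      rcases hr with rfl | hr
      · ring
      · rw [Set.mem_singleton_iff] at hr; rw [hr]; ring
    have hk := key r
    rw [hz, zero_smul] at hk
    have h2 := hu.mul_right_eq_zero.1 hk
    rcases hr with rfl | hr
    · apply h1
      rw [Algebra.algebraMap_eq_smul_one, zero_sub, neg_smul] at h2
      exact sub_eq_zero.1 (by rw [sub_eq_add_neg]; exact h2)
    · rw [Set.mem_singleton_iff] at hr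
      subst hr
      apply h0
      rw [sub_self, map_zero, add_zero] at h2
      exact h2

/-- **Theorem.** For every `n ≥ 1` the affine polar graph `VO⁺(2n, 2)` has a positive semidefinite
matrix in `S(G)` whose only eigenvalues are `0` and `2 ^ n (2 ^ n + 3)`, and which has rank `2 ^ n`. -/
theorem result (n : ℕ) (hn : 1 ≤ n) : ∃ A : Matrix (Vec n × Vec n) (Vec n × Vec n) ℝ,
    InS (polar n) A ∧ A.PosSemidef ∧ spectrum ℝ A = {0, (2 : ℝ) ^ n * (2 ^ n + 3)} ∧
      (spectrum ℝ A).ncard = 2 ∧ A.rank = 2 ^ n := by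
  have hc : (0 : ℝ) < (2 : ℝ) ^ n * (2 ^ n + 3) := by positivity
  have hcard : Fintype.card (Vec n × Vec n) = 2 ^ n * 2 ^ n := by simp
  have h2 : 2 ≤ 2 ^ n := by
    calc 2 = 2 ^ 1 := by norm_num
      _ ≤ 2 ^ n := Nat.pow_le_pow_right (by norm_num) hn
  have h0 : A n ≠ 0 := by
    intro h
    have := A_rank (n := n)
    rw [h, Matrix.rank_zero] at this
    omega
  have h1 : A n ≠ ((2 : ℝ) ^ n * (2 ^ n + 3)) • 1 := by
    intro h
    have hr := A_rank (n := n)
    have hu : IsUnit (((2 : ℝ) ^ n * (2 ^ n + 3)) •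
        (1 : Matrix (Vec n × Vec n) (Vec n × Vec n) ℝ)) := by
      have := (IsUnit.mk0 _ hc.ne').map (algebraMap ℝ (Matrix (Vec n × Vec n) (Vec n × Vec n) ℝ))
      rwa [Algebra.algebraMap_eq_smul_one] at this
    rw [h, Matrix.rank_of_isUnit _ hu, hcard] at hr
    nlinarith
  have hs := spec (A n) _ A_sq h0 h1
  refine ⟨A n, A_inS, ?_, hs, ?_, A_rank⟩
  · have := Matrix.posSemidef_conjTranspose_mul_self (Φ n)
    have e : (Φ n)ᴴ = (Φ n)ᵀ := by
      ext i j; simp [Matrix.conjTranspose_apply]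
    rw [e] at this
    exact this
  · rw [hs]
    exact Set.ncard_pair hc.ne

end Pool.Agent.Results.MP_6f6da3_co.AffinePolarTwo
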