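import Mathlib

/-!
# Strongly regular graphs that contain a grid: three distinct eigenvalues are needed

`InS G A`: `A` is a real symmetric matrix whose off-diagonal zero pattern is the graph `G`.

* If nine vertices of a graph form a 3 x 3 grid in which any two vertices in different rows and
  different columns are not adjacent and have no common neighbours but the two in the grid, then
  every matrix in `S(G)` has at least three distinct eigenvalues.
* Hence `q(G) = 3` for the lattice graphs (rook's graphs) `L₂(n)`, `n ≥ 3`, which are strongly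
  regular with parameters `(n², 2 (n - 1); n - 2, 2)`, and more generally for all strongly regular
  graphs with `c = 2` which contain an induced 3 x 3 grid.
* This is not true for all strongly regular graphs with `c = 2`: the folded 5-cube (the complement
  of the Clebsch graph), with parameters `(16, 5; 0, 2)`, has `q(G) = 2`.
-/

set_option autoImplicit false

namespace Pool.Agent.Results.MP_6f6da3_co.GridsNeedThree

open Matrix Finset

/-- `A` belongs to `S(G)`. -/
def InS {V : Type} (G : SimpleGraph V) (A : Matrix V V ℝ) : Prop :=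
  A.IsSymm ∧ ∀ x y, x ≠ y → (A x y ≠ 0 ↔ G.Adj x y)

/-- The vertices `g i j`, `i, j < 3`, form a 3 x 3 grid in `G`: two different vertices in a row or in
a column are adjacent, and two vertices in different rows and in different columns are different,
not adjacent, and have at most the two common neighbours which belong to the grid. -/
def IsGrid {V : Type} (G : SimpleGraph V) (g : Fin 3 → Fin 3 → V) : Prop :=
  (∀ i j l, j ≠ l → G.Adj (g i j) (g i l)) ∧ (∀ i k j, i ≠ k → G.Adj (g i j) (g k j)) ∧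
    ∀ i k j l, i ≠ k → j ≠ l → g i j ≠ g k l ∧ ¬ G.Adj (g i j) (g k l) ∧
      ∀ z, G.Adj (g i j) z → G.Adj z (g k l) → z = g i l ∨ z = g k j

/-- The lattice graph `L₂(n)` (rook's graph). -/
def rook (n : ℕ) : SimpleGraph (Fin n × Fin n) where
  Adj p q := p ≠ q ∧ (p.1 = q.1 ∨ p.2 = q.2)
  symm := ⟨fun _ _ h => ⟨h.1.symm, h.2.imp Eq.symm Eq.symm⟩⟩
  loopless := ⟨fun _ h => h.1 rfl⟩

/-- a matrix with spectrum in `{l, m}` satisfies `(A - l) (A - m) = 0` -/
theorem quad {V : Type} [Fintype V] [DecidableEq V] (A : Matrix V V ℝ) (hA : A.IsHermitian)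
    (l m : ℝ) (h : spectrum ℝ A ⊆ {l, m}) : A * A = (l + m) • A - (l * m) • 1 := by
  have key : ∀ j, (A * A) *ᵥ ⇑(hA.eigenvectorBasis j) =
      ((l + m) • A - (l * m) • 1) *ᵥ ⇑(hA.eigenvectorBasis j) := by
    intro j
    have h1 := hA.mulVec_eigenvectorBasis j
    have h2 : hA.eigenvalues j ∈ ({l, m} : Set ℝ) := h (hA.eigenvalues_mem_spectrum_real j)
    rw [← Matrix.mulVec_mulVec, h1, Matrix.mulVec_smul, h1, Matrix.sub_mulVec,
      Matrix.smul_mulVec, Matrix.smul_mulVec, h1, Matrix.one_mulVec, smul_smul, smul_smul,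
      ← sub_smul]
    congr 1
    rcases h2 with h2 | h2
    · rw [h2]; ring
    · rw [Set.mem_singleton_iff] at h2
      rw [h2]; ring
  have h3 : Matrix.toEuclideanLin (A * A) = Matrix.toEuclideanLin ((l + m) • A - (l * m) • 1) := by
    apply hA.eigenvectorBasis.toBasis.ext
    intro j
    ext i
    have h4 := key j
    rw [Matrix.sub_mulVec, Matrix.smul_mulVec, Matrix.smul_mulVec, Matrix.one_mulVec] at h4
    have := congrFun h4 i
    simpa [Matrix.toEuclideanLin, Matrix.toLpLin] using this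
  exact Matrix.toEuclideanLin.injective h3

/-- the relation of a pair of vertices in different rows and columns of the grid -/
theorem rel {V : Type} [Fintype V] [DecidableEq V] {G : SimpleGraph V} {A : Matrix V V ℝ}
    (hA : InS G A) {s t : ℝ} (hq : A * A = s • A - t • 1) {g : Fin 3 → Fin 3 → V}
    (hg : IsGrid G g) {i k j l : Fin 3} (hik : i ≠ k) (hjl : j ≠ l) :
    A (g i j) (g i l) * A (g i l) (g k l) + A (g i j) (g k j) * A (g k j) (g k l) = 0 := by
  obtain ⟨h1, h2, h3⟩ := hg.2.2 i k j l hik hjl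
  have e := congrFun (congrFun hq (g i j)) (g k l)
  have h0 : A (g i j) (g k l) = 0 := by
    by_contra h
    exact h2 ((hA.2 _ _ h1).1 h)
  rw [Matrix.mul_apply, Matrix.sub_apply, Matrix.smul_apply, Matrix.smul_apply, h0,
    Matrix.one_apply_ne h1, smul_zero, smul_zero, sub_zero] at e
  have hne : g i l ≠ g k j := (hg.2.2 i k l j hik (Ne.symm hjl)).1
  rw [← Finset.sum_subset (Finset.subset_univ {g i l, g k j}), Finset.sum_pair hne] at e
  · exact e
  · intro z _ hz
    by_contra hc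
    have hz1 : A (g i j) z ≠ 0 := fun h => hc (by rw [h, zero_mul])
    have hz2 : A z (g k l) ≠ 0 := fun h => hc (by rw [h, mul_zero])
    have n1 : g i j ≠ z := by
      rintro rfl
      exact hz2 h0
    have n2 : z ≠ g k l := by
      rintro rfl
      exact hz1 h0
    apply hz
    rw [Finset.mem_insert, Finset.mem_singleton]
    exact h3 z ((hA.2 _ _ n1).1 hz1) ((hA.2 _ _ n2).1 hz2)

/-- the product of the three entries of a row changes its sign from row to row -/
theorem rows {V : Type} [Fintype V] [DecidableEq V] {G : SimpleGraph V} {A : Matrix V V ℝ}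
    (hA : InS G A) {s t : ℝ} (hq : A * A = s • A - t • 1) {g : Fin 3 → Fin 3 → V}
    (hg : IsGrid G g) {i k : Fin 3} (hik : i ≠ k) :
    A (g k 0) (g k 1) * A (g k 1) (g k 2) * A (g k 0) (g k 2) =
      -(A (g i 0) (g i 1) * A (g i 1) (g i 2) * A (g i 0) (g i 2)) := by
  have sy : ∀ x y, A x y = A y x := fun x y => (hA.1.apply x y).symm
  have c0 : A (g i 0) (g k 0) ≠ 0 := (hA.2 _ _ (hg.2.1 i k 0 hik).ne).2 (hg.2.1 i k 0 hik)
  have c1 : A (g i 1) (g k 1) ≠ 0 := (hA.2 _ _ (hg.2.1 i k 1 hik).ne).2 (hg.2.1 i k 1 hik)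
  have c2 : A (g i 2) (g k 2) ≠ 0 := (hA.2 _ _ (hg.2.1 i k 2 hik).ne).2 (hg.2.1 i k 2 hik)
  have hr : A (g i 0) (g i 2) ≠ 0 :=
    (hA.2 _ _ (hg.1 i 0 2 (by decide)).ne).2 (hg.1 i 0 2 (by decide))
  have r01 := rel hA hq hg hik (show (0 : Fin 3) ≠ 1 by decide)
  have r12 := rel hA hq hg hik (show (1 : Fin 3) ≠ 2 by decide)
  have r02 := rel hA hq hg hik (show (0 : Fin 3) ≠ 2 by decide)
  have r20 := rel hA hq hg hik (show (2 : Fin 3) ≠ 0 by decide)
  rw [sy (g i 2) (g i 0), sy (g k 2) (g k 0)] at r20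
  generalize A (g i 0) (g k 0) = x0 at *
  generalize A (g i 1) (g k 1) = x1 at *
  generalize A (g i 2) (g k 2) = x2 at *
  generalize A (g i 0) (g i 1) = p at *
  generalize A (g i 1) (g i 2) = q at *
  generalize A (g i 0) (g i 2) = r at *
  generalize A (g k 0) (g k 1) = p' at *
  generalize A (g k 1) (g k 2) = q' at *
  generalize A (g k 0) (g k 2) = r' at *
  have hx : x2 ^ 2 = x0 ^ 2 := by
    have : r * (x2 ^ 2 - x0 ^ 2) = 0 := by linear_combination x2 * r02 - x0 * r20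
    rcases mul_eq_zero.1 this with h | h
    · exact absurd h hr
    · linarith
  have hne : x0 ^ 2 * x1 ≠ 0 := mul_ne_zero (pow_ne_zero 2 c0) c1
  apply mul_right_cancel₀ hne
  have e1 : p' * x0 = -(p * x1) := by linarith
  have e2 : q' * x1 = -(q * x2) := by linarith
  have e3 : r' * x0 = -(r * x2) := by linarith
  calc p' * q' * r' * (x0 ^ 2 * x1) = (p' * x0) * (q' * x1) * (r' * x0) := by ring
    _ = -(p * q * r * (x2 ^ 2 * x1)) := by rw [e1, e2, e3]; ring
    _ = -(p * q * r) * (x0 ^ 2 * x1) := by rw [hx]; ring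

/-- a graph with such a grid has no matrix with at most two distinct eigenvalues -/
theorem three_le {V : Type} [Fintype V] [DecidableEq V] {G : SimpleGraph V}
    {g : Fin 3 → Fin 3 → V} (hg : IsGrid G g) {A : Matrix V V ℝ} (hA : InS G A) :
    3 ≤ (spectrum ℝ A).ncard := by
  by_contra hlt
  have hH : A.IsHermitian := by
    ext i j
    rw [Matrix.conjTranspose_apply, star_trivial]
    exact hA.1.apply i j
  have hfin : (spectrum ℝ A).Finite := Matrix.finite_real_spectrum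
  obtain ⟨l, m, hlm⟩ : ∃ l m : ℝ, spectrum ℝ A ⊆ {l, m} := by
    rcases Nat.lt_or_ge (spectrum ℝ A).ncard 2 with h | h
    · rcases Nat.lt_or_ge (spectrum ℝ A).ncard 1 with h' | h'
      · rw [Nat.lt_one_iff, Set.ncard_eq_zero hfin] at h'
        exact ⟨0, 0, by rw [h']; exact Set.empty_subset _⟩
      · obtain ⟨a, ha⟩ := Set.ncard_eq_one.1 (show (spectrum ℝ A).ncard = 1 by omega)
        exact ⟨a, a, by rw [ha]; simp⟩
    · obtain ⟨a, b, -, hab⟩ := Set.ncard_eq_two.1 (show (spectrum ℝ A).ncard = 2 by omega)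
      exact ⟨a, b, by rw [hab]⟩
  have hq := quad A hH l m hlm
  have h01 := rows hA hq hg (show (0 : Fin 3) ≠ 1 by decide)
  have h02 := rows hA hq hg (show (0 : Fin 3) ≠ 2 by decide)
  have h12 := rows hA hq hg (show (1 : Fin 3) ≠ 2 by decide)
  have n : ∀ j l : Fin 3, j ≠ l → A (g 0 j) (g 0 l) ≠ 0 := fun j l h =>
    (hA.2 _ _ (hg.1 0 j l h).ne).2 (hg.1 0 j l h)
  have hP : A (g 0 0) (g 0 1) * A (g 0 1) (g 0 2) * A (g 0 0) (g 0 2) ≠ 0 :=
    mul_ne_zero (mul_ne_zero (n 0 1 (by decide)) (n 1 2 (by decide))) (n 0 2 (by decide))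
  apply hP
  linarith

/-- the grid in the rook's graph -/
theorem rook_grid (n : ℕ) (hn : 3 ≤ n) :
    IsGrid (rook n) fun i j => (Fin.castLE hn i, Fin.castLE hn j) := by
  have inj : ∀ {a b : Fin 3}, Fin.castLE hn a = Fin.castLE hn b → a = b := fun h =>
    Fin.castLE_injective hn h
  refine ⟨fun i j l h => ⟨fun e => h (inj (Prod.ext_iff.1 e).2), Or.inl rfl⟩,
    fun i k j h => ⟨fun e => h (inj (Prod.ext_iff.1 e).1), Or.inr rfl⟩, ?_⟩
  intro i k j l hik hjl
  refine ⟨fun e => hik (inj (Prod.ext_iff.1 e).1), ?_, ?_⟩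
  · rintro ⟨-, h | h⟩
    · exact hik (inj h)
    · exact hjl (inj h)
  · rintro ⟨a, b⟩ ⟨-, h1⟩ ⟨-, h2⟩
    simp only at h1 h2
    rcases h1 with h1 | h1
    · rcases h2 with h2 | h2
      · exact absurd (inj (h1.trans h2)) hik
      · left; rw [← h1, h2]
    · rcases h2 with h2 | h2
      · right; rw [← h1, h2]
      · exact absurd (inj (h1.trans h2)) hjl

/-- a strongly regular graph with `c = 2` and an induced 3 x 3 grid -/
theorem srg_grid {V : Type} [Fintype V] [DecidableEq V] {G : SimpleGraph V} [DecidableRel G.Adj]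
    {n k a : ℕ} (hG : G.IsSRGWith n k a 2) {g : Fin 3 → Fin 3 → V}
    (hinj : ∀ i j k l, g i j = g k l → i = k ∧ j = l)
    (hadj : ∀ i j k l, G.Adj (g i j) (g k l) ↔ ((i = k ∧ j ≠ l) ∨ (i ≠ k ∧ j = l))) :
    IsGrid G g := by
  refine ⟨fun i j l h => (hadj _ _ _ _).2 (Or.inl ⟨rfl, h⟩),
    fun i k j h => (hadj _ _ _ _).2 (Or.inr ⟨h, rfl⟩), ?_⟩
  intro i k j l hik hjl
  have hne : g i j ≠ g k l := fun h => hik (hinj _ _ _ _ h).1
  have hna : ¬ G.Adj (g i j) (g k l) := by
    rw [hadj]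
    rintro (⟨h, -⟩ | ⟨-, h⟩)
    · exact hik h
    · exact hjl h
  refine ⟨hne, hna, ?_⟩
  intro z h1 h2
  have hc : Fintype.card (G.commonNeighbors (g i j) (g k l)) = 2 := hG.of_not_adj hne hna
  have hm : ∀ w, w ∈ (G.commonNeighbors (g i j) (g k l)).toFinset ↔
      (G.Adj (g i j) w ∧ G.Adj (g k l) w) := by
    intro w
    rw [Set.mem_toFinset]
    exact SimpleGraph.mem_commonNeighbors G
  rw [← Set.toFinset_card] at hc
  have hne2 : g i l ≠ g k j := fun h => hik (hinj _ _ _ _ h).1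
  have hsub : ({g i l, g k j} : Finset V) ⊆ (G.commonNeighbors (g i j) (g k l)).toFinset := by
    intro w hw
    rw [Finset.mem_insert, Finset.mem_singleton] at hw
    rw [hm]
    rcases hw with rfl | rfl
    · exact ⟨(hadj _ _ _ _).2 (Or.inl ⟨rfl, hjl⟩), (hadj _ _ _ _).2 (Or.inr ⟨Ne.symm hik, rfl⟩)⟩
    · exact ⟨(hadj _ _ _ _).2 (Or.inr ⟨hik, rfl⟩), (hadj _ _ _ _).2 (Or.inl ⟨rfl, Ne.symm hjl⟩)⟩
  have heq := Finset.eq_of_subset_of_card_le hsub (by rw [hc, Finset.card_pair hne2])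
  have hz : z ∈ ({g i l, g k j} : Finset V) := by
    rw [heq, hm]
    exact ⟨h1, h2.symm⟩
  rw [Finset.mem_insert, Finset.mem_singleton] at hz
  exact hz

/-- The folded 5-cube on the numbers `0, …, 15`: `x` and `y` are adjacent if the binary digits of
`x` and `y` differ in exactly one place or in all four places. -/
def folded : SimpleGraph (Fin 16) where
  Adj x y := (x.val ^^^ y.val) ∈ [1, 2, 4, 8, 15]
  symm := ⟨fun x y h => by rw [Nat.xor_comm]; exact h⟩
  loopless := ⟨fun x h => by simp at h⟩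

instance : DecidableRel folded.Adj := fun x y =>
  inferInstanceAs (Decidable ((x.val ^^^ y.val) ∈ [1, 2, 4, 8, 15]))

/-- a signing of the folded 5-cube with square `5` -/
def B : Matrix (Fin 16) (Fin 16) ℤ :=
  !![0, 1, 1, 0, 1, 0, 0, 0, 1, 0, 0, 0, 0, 0, 0, 1;
    1, 0, 0, -1, 0, -1, 0, 0, 0, -1, 0, 0, 0, 0, -1, 0;
    1, 0, 0, 1, 0, 0, -1, 0, 0, 0, -1, 0, 0, 1, 0, 0;
    0, -1, 1, 0, 0, 0, 0, 1, 0, 0, 0, 1, -1, 0, 0, 0;
    1, 0, 0, 0, 0, 1, 1, 0, 0, 0, 0, -1, -1, 0, 0, 0;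
    0, -1, 0, 0, 1, 0, 0, -1, 0, 0, 1, 0, 0, 1, 0, 0;
    0, 0, -1, 0, 1, 0, 0, 1, 0, -1, 0, 0, 0, 0, 1, 0;
    0, 0, 0, 1, 0, -1, 1, 0, 1, 0, 0, 0, 0, 0, 0, -1;
    1, 0, 0, 0, 0, 0, 0, 1, 0, 1, 1, 0, 1, 0, 0, 0;
    0, -1, 0, 0, 0, 0, -1, 0, 1, 0, 0, -1, 0, -1, 0, 0;
    0, 0, -1, 0, 0, 1, 0, 0, 1, 0, 0, 1, 0, 0, -1, 0;
    0, 0, 0, 1, -1, 0, 0, 0, 0, -1, 1, 0, 0, 0, 0, 1;
    0, 0, 0, -1, -1, 0, 0, 0, 1, 0, 0, 0, 0, 1, 1, 0;
    0, 0, 1, 0, 0, 1, 0, 0, 0, -1, 0, 0, 1, 0, 0, -1;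
    0, -1, 0, 0, 0, 0, 1, 0, 0, 0, -1, 0, 1, 0, 0, 1;
    1, 0, 0, 0, 0, 0, 0, -1, 0, 0, 0, 1, 0, -1, 1, 0]

theorem B_sq : ∀ x y : Fin 16, (B * B) x y = if x = y then 5 else 0 := by decide +kernel

theorem B_symm (x y : Fin 16) : B x y = B y x := by
  have h : ∀ x y : Fin 16, (B x y - B y x).natAbs = 0 := by decide +kernel
  have := Int.natAbs_eq_zero.1 (h x y)
  linarith

theorem B_pat (x y : Fin 16) : B x y ≠ 0 ↔ folded.Adj x y := by
  have h : ∀ x y : Fin 16, (B x y).natAbs = if folded.Adj x y then 1 else 0 := by decide +kernel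
  have h1 := h x y
  rw [← Int.natAbs_ne_zero, h1]
  by_cases hh : folded.Adj x y <;> simp [hh]

theorem folded_srg : folded.IsSRGWith 16 5 0 2 where
  card := by simp
  regular := by
    intro x
    revert x
    decide +kernel
  of_adj := by decide +kernel
  of_not_adj := by
    intro x y
    revert x y
    decide +kernel

theorem folded_two : ∃ A : Matrix (Fin 16) (Fin 16) ℝ, InS folded A ∧ (spectrum ℝ A).ncard = 2 := by
  let A : Matrix (Fin 16) (Fin 16) ℝ := B.map (Int.castRingHom ℝ)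
  have hsq : A * A = (5 : ℝ) • (1 : Matrix (Fin 16) (Fin 16) ℝ) := by
    ext i j
    have h3 : (A * A) i j = (((B * B) i j : ℤ) : ℝ) := by
      rw [Matrix.mul_apply, Matrix.mul_apply]
      push_cast
      rfl
    rw [h3, B_sq, Matrix.smul_apply, Matrix.one_apply]
    by_cases hij : i = j <;> simp [hij]
  have hInS : InS folded A := by
    refine ⟨?_, fun x y _ => ?_⟩
    · ext i j
      show ((B j i : ℤ) : ℝ) = ((B i j : ℤ) : ℝ)
      rw [B_symm]
    · show ((B x y : ℤ) : ℝ) ≠ 0 ↔ _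
      rw [Int.cast_ne_zero]
      exact B_pat x y
  refine ⟨A, hInS, ?_⟩
  have h5 : Real.sqrt 5 * Real.sqrt 5 = 5 := Real.mul_self_sqrt (by norm_num)
  have hpos : 0 < Real.sqrt 5 := Real.sqrt_pos.2 (by norm_num)
  have hoff : A 0 1 ≠ 0 := (hInS.2 0 1 (by decide)).2 (by decide)
  -- `A ∓ √5` are not invertible
  have hnot : ∀ r : ℝ, r * r = 5 → r ∈ spectrum ℝ A := by
    intro r hr
    rw [spectrum.mem_iff]
    intro hu
    have hprod : (algebraMap ℝ (Matrix (Fin 16) (Fin 16) ℝ) r - A) *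
        (algebraMap ℝ (Matrix (Fin 16) (Fin 16) ℝ) r + A) = 0 := by
      rw [Algebra.algebraMap_eq_smul_one, sub_mul, mul_add, mul_add, hsq]
      simp only [smul_mul_assoc, one_mul, mul_smul_comm, mul_one, smul_smul]
      rw [hr]
      abel
    have h0 := hu.mul_right_eq_zero.1 hprod
    have h1 := congrFun (congrFun h0 0) 1
    rw [Algebra.algebraMap_eq_smul_one, Matrix.add_apply, Matrix.smul_apply,
      Matrix.one_apply_ne (by decide), smul_zero, zero_add] at h1
    exact hoff h1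
  have hsub : spectrum ℝ A ⊆ {Real.sqrt 5, -Real.sqrt 5} := by
    intro r hr
    have hsq' : r * r = 5 := by
      by_contra hne
      rw [spectrum.mem_iff] at hr
      apply hr
      have hinv : (algebraMap ℝ (Matrix (Fin 16) (Fin 16) ℝ) r - A) *
          ((r * r - 5)⁻¹ • (algebraMap ℝ (Matrix (Fin 16) (Fin 16) ℝ) r + A)) = 1 := by
        rw [mul_smul_comm, Algebra.algebraMap_eq_smul_one, sub_mul, mul_add, mul_add, hsq]
        simp only [smul_mul_assoc, one_mul, mul_smul_comm, mul_one, smul_smul]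
        have : (r * r) • (1 : Matrix (Fin 16) (Fin 16) ℝ) + r • A - (r • A + (5 : ℝ) • 1) =
            (r * r - 5) • 1 := by rw [sub_smul]; abel
        rw [this, smul_smul, inv_mul_cancel₀ (sub_ne_zero.2 hne), one_smul]
      exact IsUnit.of_mul_eq_one _ hinv
    have : (r - Real.sqrt 5) * (r + Real.sqrt 5) = 0 := by linarith [hsq', h5]
    rcases mul_eq_zero.1 this with h | h
    · left; linarith
    · right; rw [Set.mem_singleton_iff]; linarith
  have heq : spectrum ℝ A = {Real.sqrt 5, -Real.sqrt 5} := by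
    apply Set.Subset.antisymm hsub
    rintro r (rfl | h)
    · exact hnot _ h5
    · rw [Set.mem_singleton_iff] at h
      subst h
      exact hnot _ (by linarith [h5])
  rw [heq]
  exact Set.ncard_pair (by linarith)

/-- **Theorem.** -/
theorem result :
    (∀ (V : Type) [Fintype V] [DecidableEq V] (G : SimpleGraph V) (g : Fin 3 → Fin 3 → V),
      IsGrid G g → ∀ A : Matrix V V ℝ, InS G A → 3 ≤ (spectrum ℝ A).ncard) ∧
    (∀ (V : Type) [Fintype V] [DecidableEq V] (G : SimpleGraph V) [DecidableRel G.Adj]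
      (n k a : ℕ), G.IsSRGWith n k a 2 → ∀ g : Fin 3 → Fin 3 → V,
      (∀ i j k l, g i j = g k l → i = k ∧ j = l) →
      (∀ i j k l, G.Adj (g i j) (g k l) ↔ ((i = k ∧ j ≠ l) ∨ (i ≠ k ∧ j = l))) →
      ∀ A : Matrix V V ℝ, InS G A → 3 ≤ (spectrum ℝ A).ncard) ∧
    (∀ n : ℕ, 3 ≤ n → ∀ A : Matrix (Fin n × Fin n) (Fin n × Fin n) ℝ, InS (rook n) A →
      3 ≤ (spectrum ℝ A).ncard) ∧
    folded.IsSRGWith 16 5 0 2 ∧
    ∃ A : Matrix (Fin 16) (Fin 16) ℝ, InS folded A ∧ (spectrum ℝ A).ncard = 2 :=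
  ⟨fun _ _ _ _ _ hg _ hA => three_le hg hA,
    fun _ _ _ _ _ _ _ _ hG _ h1 h2 _ hA => three_le (srg_grid hG h1 h2) hA,
    fun n hn _ hA => three_le (rook_grid n hn) hA, folded_srg, folded_two⟩

end Pool.Agent.Results.MP_6f6da3_co.GridsNeedThree
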